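import Pool.Agent.Helper40.JZ.Stmts

/-!
Two continuous levels, module CLF: all types of a prime in the same coordinates (MP_7a8f48_an).
-/

open Finset Filter MeasureTheory Topology

namespace Pool.Agent.Helper53.JZ.CLF

open Pool.Agent.Helper16.AZ (T mm Ind)
open Pool.Agent.Helper40.JZ

variable {r : ℕ}

theorem fou_add (n : ℤ) (x y : U) : (fourier n (x + y) : ℂ) = fourier n x * fourier n y := by
  rw [fourier_apply, fourier_apply, fourier_apply, smul_add, AddCircle.toCircle_add, Circle.coe_mul]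

theorem fou_smul (m : ℤ) (x : U) : (fourier 1 (m • x) : ℂ) = fourier m x := by
  rw [fourier_apply, fourier_apply, one_smul]

theorem fou_norm (n : ℤ) (x : U) : ‖(fourier n x : ℂ)‖ = 1 := by
  rw [fourier_apply]
  exact Circle.norm_coe _

theorem chi_add (n : Fin r → ℤ) (s s' : T r) : chi n (s + s') = chi n s + chi n s' := by
  unfold chi
  rw [← Finset.sum_add_distrib]
  exact Finset.sum_congr rfl fun i _ => smul_add _ _ _

theorem chi_smul (n : Fin r → ℤ) (m : ℤ) (s : T r) : m • chi n s = chi (m • n) s := by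
  unfold chi
  rw [Finset.smul_sum]
  refine Finset.sum_congr rfl fun i _ => ?_
  rw [smul_smul]
  rfl

theorem chi_vz_zero (q : ℕ) [NeZero q] (s : T r) : chi (vz (0 : Fin r → ZMod q)) s = 0 := by
  unfold chi vz
  simp

theorem lift_zero (θ : T r) (f : T r → U) (q : ℕ) : Lift θ f q 0 fun _ _ => 0 := by
  refine ⟨fun _ _ => measurable_const, fun _ _ _ _ => ?_, fun _ _ => ?_⟩
  · exact Eventually.of_forall fun _ => (add_zero _).symm
  · exact Eventually.of_forall fun _ => by simp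

theorem lift_add {θ : T r} {f : T r → U} {q : ℕ} {a a' : ℤ} {D D' : T r → T r → U}
    (h : Lift θ f q a D) (h' : Lift θ f q a' D') :
    Lift θ f q (a + a') fun s x => D s x + D' s x := by
  refine ⟨fun s hs => (h.1 s hs).add (h'.1 s hs), fun s hs s' hs' => ?_, fun s hs => ?_⟩
  · filter_upwards [h.2.1 s hs s' hs', h'.2.1 s hs s' hs'] with x h1 h2
    rw [h1, h2]
    abel
  · filter_upwards [h.2.2 s hs, h'.2.2 s hs] with x h1 h2
    rw [add_smul, add_smul]
    calc D s (x + θ) + D' s (x + θ) + (a • f x + a' • f x)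
        = (D s (x + θ) + a • f x) + (D' s (x + θ) + a' • f x) := by abel
      _ = _ := by rw [h1, h2]; abel

theorem lift_smul {θ : T r} {f : T r → U} {q : ℕ} {a : ℤ} {D : T r → T r → U}
    (h : Lift θ f q a D) (j : ℤ) : Lift θ f q (j * a) fun s x => j • D s x := by
  refine ⟨fun s hs => (h.1 s hs).const_smul j, fun s hs s' hs' => ?_, fun s hs => ?_⟩
  · filter_upwards [h.2.1 s hs s' hs'] with x h1
    rw [h1, smul_add]
  · filter_upwards [h.2.2 s hs] with x h1
    rw [mul_smul, mul_smul, ← smul_add, ← smul_add, h1]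

theorem lift_chi {θ : T r} {f : T r → U} {q : ℕ} {a : ℤ} {D : T r → T r → U}
    (h : Lift θ f q a D) (n : Fin r → ℤ) : Lift θ f q a fun s x => chi n s + D s x := by
  refine ⟨fun s hs => (h.1 s hs).const_add _, fun s hs s' hs' => ?_, fun s hs => ?_⟩
  · filter_upwards [h.2.1 s hs s' hs'] with x h1
    rw [h1, chi_add]
    abel
  · filter_upwards [h.2.2 s hs] with x h1
    rw [add_assoc, h1]
    abel

/-- the integers with a lift -/
def Lam (θ : T r) (f : T r → U) (q : ℕ) : AddSubgroup ℤ where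
  carrier := {a | ∃ D, Lift θ f q a D}
  zero_mem' := ⟨_, lift_zero θ f q⟩
  add_mem' := by
    rintro a b ⟨D, hD⟩ ⟨D', hD'⟩
    exact ⟨_, lift_add hD hD'⟩
  neg_mem' := by
    rintro a ⟨D, hD⟩
    have := lift_smul hD (-1)
    rw [neg_one_mul] at this
    exact ⟨_, this⟩

theorem mem_Lam {θ : T r} {f : T r → U} {q : ℕ} {a : ℤ} :
    a ∈ Lam θ f q ↔ ∃ D, Lift θ f q a D := Iff.rfl

/-- the masses only depend on the lift almost everywhere -/
theorem ms_congr {q : ℕ} {D D' : T r → T r → U} {j j' : ℤ} (g : T r → ℂ)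
    (h : ∀ s ∈ tor r q, ∀ᵐ x ∂(mm r), (fourier j (D s x) : ℂ) = fourier j' (D' s x)) :
    ms q D j g = ms q D' j' g := by
  unfold ms
  refine integral_congr_ae ?_
  have h1 : ∀ᵐ x ∂(mm r), ∀ s ∈ tor r q, (fourier j (D s x) : ℂ) = fourier j' (D' s x) :=
    (ae_ball_iff (tor r q).countable_toSet).2 h
  filter_upwards [h1] with x hx
  have h2 : pj q D j g x = pj q D' j' g x := by
    unfold pj
    congr 1
    exact Finset.sum_congr rfl fun s hs => by rw [hx s hs]
  simp only [h2]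

theorem ms_nonneg (q : ℕ) (D : T r → T r → U) (j : ℤ) (g : T r → ℂ) : 0 ≤ ms q D j g :=
  integral_nonneg fun _ => by positivity

/-- the coordinates -/
noncomputable def Ph {q : ℕ} (D₀ : T r → T r → U) (l : ℤ) (G : T (r + 1) → ℂ)
    (u : ℤ × (Fin r → ZMod q)) : ℝ :=
  ms q (fun s x => chi (vz u.2) s + u.1 • D₀ s x) 1 (fib G (u.1 * l))

theorem key {q : ℕ} [NeZero q] (hTCH : ST_TCH) {D₀ D : T r → T r → U} {j₀ : ℤ}
    {ω : Fin r → ZMod q}
    (h : ∀ s ∈ tor r q, ∀ᵐ x ∂(mm r), D s x = chi (vz ω) s + j₀ • D₀ s x) (m : ℤ)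
    (g : T r → ℂ) :
    ms q D m g = ms q (fun s x => chi (vz (m • ω)) s + (m * j₀) • D₀ s x) 1 g := by
  refine ms_congr g fun s hs => ?_
  filter_upwards [h s hs] with x hx
  rw [hx, ← fou_smul m, smul_add, smul_smul, chi_smul]
  rw [(hTCH r q).2.1 (m • vz ω) (m • ω) ?_ s hs]
  intro i
  simp [vz]

/-- Plancherel's formula -/
theorem ph_sum {q : ℕ} [NeZero q] (hTOR : ST_TOR) (hTCH : ST_TCH) (hMSF : ST_MSF)
    {D₀ : T r → T r → U} (hD : ∀ s ∈ tor r q, Measurable (D₀ s)) (j : ℤ) (g : T r → ℂ)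
    (hg : MemLp g 2 (mm r)) :
    ∑ ω : Fin r → ZMod q, ms q (fun s x => chi (vz ω) s + j • D₀ s x) 1 g =
      ∫ x, ‖g x‖ ^ 2 ∂(mm r) := by
  have hq1 : 1 ≤ q := NeZero.one_le
  have hqr : (0 : ℝ) < (q : ℝ) ^ r := by positivity
  have hgi : Integrable (fun x => ‖g x‖ ^ 2) (mm r) := hg.integrable_norm_pow (by norm_num)
  have hint : ∀ ω : Fin r → ZMod q, Integrable (fun x =>
      ‖pj q (fun s x => chi (vz ω) s + j • D₀ s x) 1 g x‖ ^ 2) (mm r) := by
    intro ω
    refine MemLp.integrable_norm_pow ?_ (by norm_num)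
    exact (hMSF r q _ 1 g g hq1 (fun s hs => ((hD s hs).const_smul j).const_add _) hg hg).1
  unfold ms
  rw [← integral_finsetSum _ fun ω _ => hint ω]
  have hpt : ∀ x, ∑ ω : Fin r → ZMod q,
      ‖pj q (fun s x => chi (vz ω) s + j • D₀ s x) 1 g x‖ ^ 2 =
      (∑ s ∈ tor r q, ‖g (x + s)‖ ^ 2) / (q : ℝ) ^ r := by
    intro x
    have h1 := (hTCH r q).2.2.2 (fun s => fourier 1 (j • D₀ s x) * g (x + s))
    have h2 : ∀ ω : Fin r → ZMod q,
        ‖pj q (fun s x => chi (vz ω) s + j • D₀ s x) 1 g x‖ ^ 2 =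
        ‖∑ s ∈ tor r q, fourier 1 (chi (vz ω) s) *
          (fourier 1 (j • D₀ s x) * g (x + s))‖ ^ 2 / ((q : ℝ) ^ r) ^ 2 := by
      intro ω
      have h5 : (∑ s ∈ tor r q, (fourier 1 (chi (vz ω) s + j • D₀ s x) : ℂ) * g (x + s)) =
          ∑ s ∈ tor r q, (fourier 1 (chi (vz ω) s) : ℂ) *
            ((fourier 1 (j • D₀ s x) : ℂ) * g (x + s)) :=
        Finset.sum_congr rfl fun s _ => by rw [fou_add, mul_assoc]
      unfold pj
      rw [norm_div, div_pow, norm_pow, Complex.norm_natCast, h5]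
    rw [Finset.sum_congr rfl fun ω _ => h2 ω, ← Finset.sum_div, h1]
    have h3 : ∀ s ∈ tor r q, ‖(fourier 1 (j • D₀ s x) : ℂ) * g (x + s)‖ ^ 2 =
        ‖g (x + s)‖ ^ 2 := by
      intro s _
      rw [norm_mul, fou_norm, one_mul]
    rw [Finset.sum_congr rfl h3]
    field_simp
  simp only [hpt]
  rw [integral_div, integral_finsetSum _ fun s _ => ?_]
  · have h4 : ∀ s ∈ tor r q, ∫ x, ‖g (x + s)‖ ^ 2 ∂(mm r) = ∫ x, ‖g x‖ ^ 2 ∂(mm r) := by
      intro s _
      exact integral_add_right_eq_self (fun x => ‖g x‖ ^ 2) s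
    rw [Finset.sum_congr rfl h4, Finset.sum_const, (hTOR r q hq1).2.1, nsmul_eq_mul,
      Nat.cast_pow]
    field_simp
  · exact (measurePreserving_add_right (mm r) s).integrable_comp_of_integrable hgi

theorem ph_tsum {q : ℕ} [NeZero q] (hTOR : ST_TOR) (hTCH : ST_TCH) (hMSF : ST_MSF)
    {D₀ : T r → T r → U} (hD : ∀ s ∈ tor r q, Measurable (D₀ s)) (l : ℤ)
    (G : T (r + 1) → ℂ) (hF : ∀ a : ℤ, MemLp (fib G a) 2 (mm r)) (j : ℤ) :
    ∑' ω : Fin r → ZMod q, Ph D₀ l G (j, ω) = ∫ x, ‖fib G (j * l) x‖ ^ 2 ∂(mm r) := by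
  have h1 := ph_sum hTOR hTCH hMSF hD j (fib G (j * l)) (hF (j * l))
  have h2 : ∀ ω : Fin r → ZMod q, Ph D₀ l G (j, ω) =
      ms q (fun s x => chi (vz ω) s + j • D₀ s x) 1 (fib G (j * l)) := fun ω => rfl
  rw [tsum_fintype, Finset.sum_congr rfl fun ω _ => h2 ω]
  exact h1

theorem sum_aux {ι : Type} [Finite ι] {f : ℤ × ι → ℝ} {g : ℤ → ℝ} {i : ℤ → ℤ} {C : ℝ}
    (hf : ∀ u, 0 ≤ f u) (hg : ∀ a, 0 ≤ g a) (hi : Function.Injective i)
    (h : ∀ j : ℤ, ∑' ω : ι, f (j, ω) = g (i j)) (hgs : HasSum g C) :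
    Summable f ∧ ∑' u, f u ≤ C := by
  have hgi : Summable fun j => g (i j) := hgs.summable.comp_injective hi
  have hS2 : Summable fun j : ℤ => ∑' ω : ι, f (j, ω) := by
    have : (fun j : ℤ => ∑' ω : ι, f (j, ω)) = fun j => g (i j) := funext h
    rw [this]
    exact hgi
  have hS : Summable f :=
    (summable_prod_of_nonneg hf).2 ⟨fun j => Summable.of_finite, hS2⟩
  refine ⟨hS, ?_⟩
  rw [hS.tsum_prod' fun j => Summable.of_finite, tsum_congr h, ← hgs.tsum_eq]
  exact tsum_comp_le_tsum_of_inj hgs.summable hg hi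

theorem ph_zero {q : ℕ} [NeZero q] (D₀ : T r → T r → U) (l : ℤ) (G : T (r + 1) → ℂ) :
    NT q none G = Ph (q := q) D₀ l G 0 := by
  unfold NT Ph
  rw [Prod.fst_zero, Prod.snd_zero, zero_mul]
  refine ms_congr _ fun s _ => Eventually.of_forall fun x => ?_
  rw [chi_vz_zero, zero_smul, add_zero, ← fou_smul 0 0, zero_smul]

end Pool.Agent.Helper53.JZ.CLF

namespace Pool.Agent.Helper40.JZ

open Pool.Agent.Helper16.AZ (T mm Ind)
open Pool.Agent.Helper53.JZ.CLF

theorem st_CLF : ST_TOR → ST_TCH → ST_LCH → ST_MSF → ST_FIB → ST_CLF := by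
  intro hTOR hTCH hLCH hMSF hFIB r θ f q hθ hf hq
  have : NeZero q := ⟨hq.ne_zero⟩
  have hq1 : 1 ≤ q := hq.one_le
  obtain ⟨-, hF⟩ := hFIB r
  obtain ⟨l, hl⟩ := Int.subgroup_cyclic (Lam θ f q)
  rw [← AddSubgroup.zmultiples_eq_closure] at hl
  have hmem : ∀ a : ℤ, (∃ D, Lift θ f q a D) ↔ ∃ j : ℤ, j * l = a := by
    intro a
    rw [← mem_Lam, hl, AddSubgroup.mem_zmultiples_iff]
    simp only [smul_eq_mul]
  by_cases hl0 : l = 0
  · -- no types
    have hnt : ∀ G : T (r + 1) → ℂ, 0 ≤ NT q none G := fun G => ms_nonneg _ _ _ _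
    refine ⟨fun G u => if u = 0 then NT q none G else 0, ?_, ?_, ?_⟩
    · intro G hG
      obtain ⟨hF1, hF2, -, -⟩ := hF G hG
      refine ⟨fun u => ?_, ?_, ?_, ?_⟩
      · dsimp only
        split_ifs
        · exact hnt G
        · exact le_rfl
      · refine summable_of_ne_finset_zero (s := {0}) fun u hu => ?_
        dsimp only
        rw [if_neg (by simpa using hu)]
      · dsimp only
        rw [tsum_ite_eq]
        have h1 : NT q none G ≤ ∫ x, ‖fib G 0 x‖ ^ 2 ∂(mm r) :=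
          (hMSF r q (fun _ _ => 0) 0 (fib G 0) (fib G 0) hq1 (fun _ _ => measurable_const)
            (hF1 0) (hF1 0)).2.2.1
        refine h1.trans ?_
        rw [← hF2.tsum_eq]
        exact hF2.summable.le_tsum 0 fun j _ => integral_nonneg fun _ => by positivity
      · dsimp only
        rw [if_pos rfl]
    · intro t ht
      rcases t with _ | t
      · exact Or.inl rfl
      · exfalso
        obtain ⟨h1, h2⟩ := ht
        obtain ⟨j, hj⟩ := (hmem t.1).1 ⟨_, h2⟩
        rw [hl0, mul_zero] at hj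
        exact h1 hj.symm
    · intro τ hτ
      refine ⟨none, trivial, fun G _ => ?_⟩
      have h1 : ∀ m : ℤ, (m • τ = 0) ↔ m = 0 := by
        intro m
        constructor
        · intro h
          have h2 : (m • τ).1 = 0 := by rw [h]; rfl
          rw [Prod.smul_fst, smul_eq_mul] at h2
          rcases mul_eq_zero.1 h2 with h3 | h3
          · exact h3
          · exact absurd h3 hτ
        · intro h
          rw [h, zero_smul]
      have h2 : ∀ m : ℤ, (if m • τ = 0 then NT q none G else 0) =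
          if m = 0 then NT q none G else 0 := by
        intro m
        simp only [h1]
      rw [tsum_congr h2, tsum_ite_eq]
  · obtain ⟨D₀, hD₀⟩ := (hmem l).2 ⟨1, one_mul l⟩
    have hterm : ∀ (G : T (r + 1) → ℂ) (τ : ℤ × (Fin r → ZMod q)) (D : T r → T r → U),
        (∀ s ∈ tor r q, ∀ᵐ x ∂(mm r), D s x = chi (vz τ.2) s + τ.1 • D₀ s x) →
        NT q (some (τ.1 * l, D)) G = ∑' m : ℤ, Ph D₀ l G (m • τ) := by
      intro G τ D hD
      unfold NT Ph
      refine tsum_congr fun m => ?_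
      rw [key hTCH hD m]
      simp only [Prod.smul_fst, Prod.smul_snd, smul_eq_mul, mul_assoc]
    refine ⟨fun G u => Ph D₀ l G u, ?_, ?_, ?_⟩
    · intro G hG
      obtain ⟨hF1, hF2, -, -⟩ := hF G hG
      have hnn : ∀ u, 0 ≤ Ph (q := q) D₀ l G u := fun u => ms_nonneg _ _ _ _
      have hsum : ∀ j : ℤ, ∑' ω : Fin r → ZMod q, Ph D₀ l G (j, ω) =
          ∫ x, ‖fib G (j * l) x‖ ^ 2 ∂(mm r) := by
        intro j
        exact ph_tsum hTOR hTCH hMSF hD₀.1 l G hF1 j
      have hinj : Function.Injective fun j : ℤ => j * l := fun j j' h =>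
        mul_right_cancel₀ hl0 h
      obtain ⟨hS, hle⟩ := sum_aux (f := Ph (q := q) D₀ l G)
        (g := fun a => ∫ x, ‖fib G a x‖ ^ 2 ∂(mm r)) hnn
        (fun a => integral_nonneg fun _ => by positivity) hinj hsum hF2
      refine ⟨hnn, hS, hle, ?_⟩
      exact ph_zero D₀ l G
    · intro t ht
      rcases t with _ | t
      · exact Or.inl rfl
      · right
        obtain ⟨h1, h2⟩ := ht
        obtain ⟨j, hj⟩ := (hmem t.1).1 ⟨_, h2⟩
        have h3 := lift_smul hD₀ j
        rw [hj] at h3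
        obtain ⟨ω, hω⟩ := hLCH r θ f q t.1 _ _ hθ h3 h2
        refine ⟨(j, ω), ?_, fun G _ => ?_⟩
        · rintro rfl
          rw [zero_mul] at hj
          exact h1 hj.symm
        · have h4 := hterm G (j, ω) t.2 hω
          rw [← h4]
          dsimp only
          rw [hj]
    · intro τ hτ
      refine ⟨some (τ.1 * l, fun s x => chi (vz τ.2) s + τ.1 • D₀ s x), ⟨mul_ne_zero hτ hl0,
        lift_chi (lift_smul hD₀ τ.1) _⟩, fun G _ => ?_⟩
      exact (hterm G τ _ fun s _ => Eventually.of_forall fun x => rfl).symm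

end Pool.Agent.Helper40.JZ
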